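import Mathlib
import Pool.Agent.H42.Sok1

open Pool.Agent.H42.SokDefs

/-- A monotonically Sokolov space with a Tychonoff continuous image that is not monotonically
Sokolov. -/
theorem Pool.Agent.Results.MP_a45b15_gt.No.result :
    ∃ (X Y : Type) (_ : TopologicalSpace X) (_ : TopologicalSpace Y),
      T35Space X ∧ T35Space Y ∧ (∃ r : Set (Set X) → X → X, ∃ N, Sok r N ∧ OmegaCont N) ∧
      (∃ f : X → Y, Continuous f ∧ Function.Surjective f) ∧
      ¬ ∃ r : Set (Set Y) → Y → Y, ∃ N, Sok r N :=
  Pool.Agent.H42.Sok1.main
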